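import Mathlib

namespace Pool.Agent.Results.MP_b61ad0_an.Unimodal

open Finset

lemma up (h : ℕ → ℝ) (k : ℕ) (H : ∀ i, i < k → h i ≤ h (i + 1)) :
    ∑ i ∈ range k, |h i - h (i + 1)| = h k - h 0 := by
  induction k with
  | zero => simp
  | succ k ih =>
    rw [sum_range_succ, ih fun i hi => H i (by omega), abs_of_nonpos (by linarith [H k (by omega)])]
    ring

lemma tele (h : ℕ → ℝ) (p : ℕ) (H : ∀ i, i < p → h i ≤ h (i + 1)) (m : ℕ) (hm : p ≤ m) :
    (∀ i, p ≤ i → i < m → h (i + 1) ≤ h i) →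
    ∑ i ∈ range m, |h i - h (i + 1)| = 2 * h p - h 0 - h m := by
  induction m, hm using Nat.le_induction with
  | base => intro _; rw [up h p H]; ring
  | succ m hm ih =>
    intro H2
    rw [sum_range_succ, ih fun i h1 h2 => H2 i h1 (by omega),
      abs_of_nonneg (by linarith [H2 m hm (by omega)])]
    ring

def B (n v r : ℕ) : Finset ℕ := (range n).filter (fun w => Nat.dist v w ≤ r)

lemma mem_B {n v r w : ℕ} : w ∈ B n v r ↔ w < n ∧ Nat.dist v w ≤ r := by simp [B]

lemma cpos {n v : ℕ} (r : ℕ) (hv : v < n) : (0 : ℝ) < (B n v r).card := by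
  have : (B n v r).Nonempty := ⟨v, mem_B.2 ⟨hv, by simp⟩⟩
  exact_mod_cast this.card_pos

lemma B0 {n v : ℕ} (hv : v < n) : B n v 0 = {v} := by
  ext w; rw [mem_B, mem_singleton]; unfold Nat.dist; omega

section
variable {n : ℕ} {g M : ℕ → ℝ}
  (hM : ∀ v, v < n → IsGreatest {a : ℝ | ∃ r : ℕ, a = (∑ w ∈ B n v r, g w) / (B n v r).card} (M v))
include hM

lemma ge_self {v : ℕ} (hv : v < n) : g v ≤ M v := (hM v hv).2 ⟨0, by simp [B0 hv]⟩

lemma step {u v : ℕ} (hu : u < n) (hv : v < n) (huv : Nat.dist u v = 1)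
    (H : ∀ w, w < n → Nat.dist v w ≤ Nat.dist u w → g w ≤ g u) : M v ≤ M u := by
  obtain ⟨r, hr⟩ := (hM v hv).1
  have h0 := ge_self hM hu
  by_contra hc
  push Not at hc
  rcases r with _ | r
  · rw [B0 hv] at hr
    simp at hr
    have := H v hv (by simp)
    linarith
  · have hsub : B n u r ⊆ B n v (r + 1) := by
      intro w hw; rw [mem_B] at *; unfold Nat.dist at *; omega
    have h1 : (∑ w ∈ B n u r, g w) / (B n u r).card ≤ M u := (hM u hu).2 ⟨r, rfl⟩
    rw [div_le_iff₀ (cpos r hu)] at h1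
    rw [eq_div_iff (cpos _ hv).ne', ← sum_sdiff hsub, ← card_sdiff_add_card_eq_card hsub] at hr
    have h2 : ∑ w ∈ B n v (r + 1) \ B n u r, g w ≤ (B n v (r + 1) \ B n u r).card • M v := by
      apply sum_le_card_nsmul
      intro w hw
      rw [mem_sdiff, mem_B, mem_B] at hw
      have := H w hw.1.1 (by omega)
      linarith
    rw [nsmul_eq_mul] at h2
    push_cast at hr
    have := cpos r hu
    nlinarith

lemma peak {p : ℕ} (hp : p < n) (H : ∀ w, w < n → g w ≤ g p) : M p ≤ g p := by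
  obtain ⟨r, hr⟩ := (hM p hp).1
  rw [hr, div_le_iff₀ (cpos r hp), mul_comm, ← nsmul_eq_mul]
  exact sum_le_card_nsmul _ _ _ fun w hw => H w (mem_B.1 hw).1

lemma endp {e p r : ℕ} (he : e < n) (hp : p ∈ B n e r) (H : ∀ w ∈ B n e r, g e ≤ g w) :
    g e + (g p - g e) / n ≤ M e := by
  have h1 : (∑ w ∈ B n e r, g w) / (B n e r).card ≤ M e := (hM e he).2 ⟨r, rfl⟩
  have h2 : g p - g e ≤ ∑ w ∈ B n e r, (g w - g e) :=
    single_le_sum (f := fun w => g w - g e) (fun w hw => sub_nonneg.2 (H w hw)) hp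
  rw [sum_sub_distrib, sum_const, nsmul_eq_mul] at h2
  have hc := cpos r he
  have h3 : ((B n e r).card : ℝ) ≤ n := by
    have := card_filter_le (range n) (fun w => Nat.dist e w ≤ r)
    rw [card_range] at this
    exact_mod_cast this
  have h4 : (g p - g e) / n ≤ (g p - g e) / (B n e r).card :=
    div_le_div_of_nonneg_left (sub_nonneg.2 (H p hp)) hc h3
  have h5 : g e + (g p - g e) / (B n e r).card ≤ (∑ w ∈ B n e r, g w) / (B n e r).card := by
    rw [le_div_iff₀ hc, add_mul, div_mul_cancel₀ _ hc.ne']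
    linarith
  linarith

lemma low {q e r : ℕ} (m : ℝ) (hq : q < n) (hp : e ∈ B n q r) (H : ∀ w ∈ B n q r, m ≤ g w) :
    m + (g e - m) / n ≤ M q := by
  have h1 : (∑ w ∈ B n q r, g w) / (B n q r).card ≤ M q := (hM q hq).2 ⟨r, rfl⟩
  have h2 : g e - m ≤ ∑ w ∈ B n q r, (g w - m) :=
    single_le_sum (f := fun w => g w - m) (fun w hw => sub_nonneg.2 (H w hw)) hp
  rw [sum_sub_distrib, sum_const, nsmul_eq_mul] at h2
  have hc := cpos r hq
  have h3 : ((B n q r).card : ℝ) ≤ n := by
    have := card_filter_le (range n) (fun w => Nat.dist q w ≤ r)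
    rw [card_range] at this
    exact_mod_cast this
  have h4 : (g e - m) / n ≤ (g e - m) / (B n q r).card :=
    div_le_div_of_nonneg_left (sub_nonneg.2 (H e hp)) hc h3
  have h5 : m + (g e - m) / (B n q r).card ≤ (∑ w ∈ B n q r, g w) / (B n q r).card := by
    rw [le_div_iff₀ hc, add_mul, div_mul_cancel₀ _ hc.ne']
    linarith
  linarith

lemma add {u v r s : ℕ} (hu : u < n) (hv : v < n)
    (hr : M v = (∑ w ∈ B n v r, g w) / (B n v r).card) (hsub : B n v r ⊆ B n u s)
    (H : ∀ y, y < n → Nat.dist u y ≤ s → r < Nat.dist v y → M v ≤ g y) : M v ≤ M u := by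
  have h1 : (∑ w ∈ B n u s, g w) / (B n u s).card ≤ M u := (hM u hu).2 ⟨s, rfl⟩
  refine le_trans ?_ h1
  rw [le_div_iff₀ (cpos s hu), ← sum_sdiff hsub, ← card_sdiff_add_card_eq_card hsub]
  rw [eq_div_iff (cpos _ hv).ne'] at hr
  have h2 : (B n u s \ B n v r).card • M v ≤ ∑ w ∈ B n u s \ B n v r, g w := by
    apply card_nsmul_le_sum
    intro w hw
    rw [mem_sdiff, mem_B, mem_B] at hw
    exact H w hw.1.1 hw.1.2 (by omega)
  rw [nsmul_eq_mul] at h2
  push_cast
  linarith

omit hM in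
lemma top {v r : ℕ} (hv : v < n) (hr : M v = (∑ w ∈ B n v r, g w) / (B n v r).card) (t : ℝ)
    (H : ∀ w, w < n → Nat.dist v w ≤ r → g w ≤ t) : M v ≤ t := by
  rw [hr, div_le_iff₀ (cpos r hv), mul_comm, ← nsmul_eq_mul]
  exact sum_le_card_nsmul _ _ _ fun w hw => H w (mem_B.1 hw).1 (mem_B.1 hw).2

lemma valley {p : ℕ} (hp : p < n) (m1 : ∀ j, j ≤ p → ∀ i, i ≤ j → g j ≤ g i)
    (m2 : ∀ i, p ≤ i → ∀ j, i ≤ j → j < n → g i ≤ g j) :
    ∑ i ∈ range (n - 1), |M i - M (i + 1)| ≤ (1 - 1 / (n : ℝ)) * (g 0 + g (n - 1) - 2 * g p) := by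
  have qc : ∀ a x b, a ≤ x → x ≤ b → b < n → g x ≤ max (g a) (g b) := by
    intro a x b h1 h2 h3
    rcases le_total x p with h | h
    · exact (m1 x h a h1).trans (le_max_left _ _)
    · exact (m2 x h b h2 h3).trans (le_max_right _ _)
  have di : ∀ a b, a ≤ b → b < n → (p ≤ b ∧ g a ≤ g b) ∨ (a ≤ p ∧ g b ≤ g a) := by
    intro a b h1 h2
    rcases le_total b p with h | h
    · exact Or.inr ⟨by omega, m1 b h a h1⟩
    rcases le_total p a with h' | h'
    · exact Or.inl ⟨h, m2 a h' b h1 h2⟩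
    rcases le_total (g a) (g b) with h'' | h''
    · exact Or.inl ⟨h, h''⟩
    · exact Or.inr ⟨h', h''⟩
  -- dichotomy for the optimal ball at `v`
  have key : ∀ v, v < n → ∃ r, M v = (∑ w ∈ B n v r, g w) / (B n v r).card ∧
      ((M v ≤ g (min (v + r) (n - 1)) ∧ ∀ y, y < n → v + r < y → M v ≤ g y) ∨
       (M v ≤ g (v - r) ∧ ∀ y, y + r < v → M v ≤ g y)) := by
    intro v hv
    obtain ⟨r, hr⟩ := (hM v hv).1
    refine ⟨r, hr, ?_⟩
    have ht := top hv hr (max (g (v - r)) (g (min (v + r) (n - 1)))) (fun w hw hd =>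
      qc _ w _ (by unfold Nat.dist at hd; omega) (by unfold Nat.dist at hd; omega) (by omega))
    rcases di (v - r) (min (v + r) (n - 1)) (by omega) (by omega) with ⟨h1, h2⟩ | ⟨h1, h2⟩
    · rw [max_eq_right h2] at ht
      exact Or.inl ⟨ht, fun y hy hy' => ht.trans (m2 _ h1 y (by omega) hy)⟩
    · rw [max_eq_left h2] at ht
      exact Or.inr ⟨ht, fun y hy => ht.trans (m1 _ h1 y (by omega))⟩
  have QC : ∀ u v w, u < v → v < w → w < n → M v ≤ M u ∨ M v ≤ M w := by
    intro u v w h1 h2 h3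
    obtain ⟨r, hr, ⟨_, h⟩ | ⟨_, h⟩⟩ := key v (by omega)
    · right
      apply add hM (s := w + r - v) h3 (by omega) hr
      · intro x hx; rw [mem_B] at *; unfold Nat.dist at *; omega
      · intro y hy d1 d2; exact h y hy (by unfold Nat.dist at *; omega)
    · left
      apply add hM (s := v + r - u) (by omega) (by omega) hr
      · intro x hx; rw [mem_B] at *; unfold Nat.dist at *; omega
      · intro y hy d1 d2; exact h y (by unfold Nat.dist at *; omega)
  obtain ⟨q, hq, hmin⟩ := exists_min_image (range n) M ⟨p, mem_range.2 hp⟩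
  rw [mem_range] at hq
  have e0 : M 0 ≤ g 0 ∨ M 0 ≤ M q := by
    obtain ⟨r, hr, ⟨_, h⟩ | ⟨h, _⟩⟩ := key 0 (by omega)
    · right
      apply add hM (s := n) hq (by omega) hr
      · intro x hx; rw [mem_B] at *; unfold Nat.dist at *; omega
      · intro y hy d1 d2; exact h y hy (by unfold Nat.dist at *; omega)
    · left; simpa using h
  have e1 : M (n - 1) ≤ g (n - 1) ∨ M (n - 1) ≤ M q := by
    obtain ⟨r, hr, ⟨h, _⟩ | ⟨_, h⟩⟩ := key (n - 1) (by omega)
    · left; rwa [min_eq_right (by omega)] at h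
    · right
      apply add hM (s := n) hq (by omega) hr
      · intro x hx; rw [mem_B] at *; unfold Nat.dist at *; omega
      · intro y hy d1 d2; exact h y (by unfold Nat.dist at *; omega)
  have gm : ∀ w, w < n → g p ≤ g w := fun w hw => by
    rcases le_total w p with h | h
    · exact m1 p le_rfl w h
    · exact m2 p le_rfl w h hw
  have l0 := low hM (q := q) (e := 0) (r := n) (g p) hq
    (mem_B.2 ⟨by omega, by unfold Nat.dist; omega⟩) (fun w hw => gm w (mem_B.1 hw).1)
  have l1 := low hM (q := q) (e := n - 1) (r := n) (g p) hq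
    (mem_B.2 ⟨by omega, by unfold Nat.dist; omega⟩) (fun w hw => gm w (mem_B.1 hw).1)
  have eM := tele (fun i => -M i) q (fun i hi => neg_le_neg (by
      rcases Nat.lt_or_ge (i + 1) q with h | h
      · rcases QC i (i + 1) q (by omega) h hq with h' | h'
        · exact h'
        · exact h'.trans (hmin i (mem_range.2 (by omega)))
      · rw [show i + 1 = q by omega]; exact hmin i (mem_range.2 (by omega)))) (n - 1) (by omega)
    (fun i hi hn => neg_le_neg (by
      rcases Nat.lt_or_ge q i with h | h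
      · rcases QC q i (i + 1) h (by omega) (by omega) with h' | h'
        · exact h'.trans (hmin (i + 1) (mem_range.2 (by omega)))
        · exact h'
      · have : i = q := by omega
        rw [this]; exact hmin (q + 1) (mem_range.2 (by omega))))
  have eM' : ∑ i ∈ range (n - 1), |M i - M (i + 1)| = M 0 + M (n - 1) - 2 * M q := by
    rw [← sum_congr rfl (fun i _ => (by rw [← abs_neg]; congr 1; ring :
      |(-M i) - (-M (i + 1))| = |M i - M (i + 1)|)), eM]
    ring
  have hn : (1 : ℝ) ≤ n := by exact_mod_cast (show 1 ≤ n by omega)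
  have a0 : (g 0 - g p) / n ≤ g 0 - g p := div_le_self (sub_nonneg.2 (gm 0 (by omega))) hn
  have a1 : (g (n - 1) - g p) / n ≤ g (n - 1) - g p :=
    div_le_self (sub_nonneg.2 (gm _ (by omega))) hn
  have : (1 - 1 / (n : ℝ)) * (g 0 + g (n - 1) - 2 * g p) =
      (g 0 - g p - (g 0 - g p) / n) + (g (n - 1) - g p - (g (n - 1) - g p) / n) := by ring
  rw [eM', this]
  rcases e0 with e0 | e0 <;> rcases e1 with e1 | e1 <;> linarith
end

theorem peaked (n p : ℕ) (hp : p < n) (f M : ℕ → ℝ)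
    (h1 : ∀ i, i < p → |f i| ≤ |f (i + 1)|)
    (h2 : ∀ i, p ≤ i → i + 1 < n → |f (i + 1)| ≤ |f i|)
    (hM : ∀ v, v < n → IsGreatest {a : ℝ | ∃ r : ℕ,
      a = (∑ w ∈ (Finset.range n).filter (fun w => Nat.dist v w ≤ r), |f w|) /
        (((Finset.range n).filter (fun w => Nat.dist v w ≤ r)).card : ℝ)} (M v)) :
    ∑ i ∈ Finset.range (n - 1), |M i - M (i + 1)| ≤
      (1 - 1 / (n : ℝ)) * ∑ i ∈ Finset.range (n - 1), |f i - f (i + 1)| := by
  have hM' : ∀ v, v < n → IsGreatest
      {a : ℝ | ∃ r : ℕ, a = (∑ w ∈ B n v r, |f w|) / (B n v r).card} (M v) := hM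
  have m1 : ∀ j, j ≤ p → ∀ i, i ≤ j → |f i| ≤ |f j| := by
    intro j hj i hi
    induction j, hi using Nat.le_induction with
    | base => exact le_rfl
    | succ j _ ih => exact (ih (by omega)).trans (h1 j (by omega))
  have m2 : ∀ i, p ≤ i → ∀ j, i ≤ j → j < n → |f j| ≤ |f i| := by
    intro i hi j hj hn
    induction j, hj using Nat.le_induction with
    | base => exact le_rfl
    | succ j _ ih => exact (h2 j (by omega) hn).trans (ih (by omega))
  have eM := tele M p (fun i hi => step (g := fun w => |f w|) hM' (by omega) (by omega)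
      (by unfold Nat.dist; omega)
      (fun w _ hw => m1 (i + 1) hi w (by unfold Nat.dist at hw; omega))) (n - 1) (by omega)
    (fun i hi hn => step (g := fun w => |f w|) hM' (by omega) (by omega)
      (by unfold Nat.dist; omega)
      (fun w hw' hw => m2 i hi w (by unfold Nat.dist at hw; omega) hw'))
  have eg := tele (fun w => |f w|) p h1 (n - 1) (by omega) (fun i hi hn => h2 i hi (by omega))
  have hfg : ∑ i ∈ range (n - 1), abs (|f i| - |f (i + 1)|) ≤
      ∑ i ∈ range (n - 1), |f i - f (i + 1)| :=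
    sum_le_sum fun i _ => abs_abs_sub_abs_le_abs_sub _ _
  have pk := peak (g := fun w => |f w|) hM' hp (fun w hw => by
    rcases le_total w p with h | h
    · exact m1 p le_rfl w h
    · exact m2 p le_rfl w h hw)
  have e0 := endp (g := fun w => |f w|) (e := 0) (p := p) (r := p) hM' (by omega)
    (mem_B.2 ⟨hp, by unfold Nat.dist; omega⟩) (fun w hw => by
      rw [mem_B] at hw
      exact m1 w (by have := hw.2; unfold Nat.dist at this; omega) 0 (by omega))
  have e1 := endp (g := fun w => |f w|) (e := n - 1) (p := p) (r := n - 1 - p) hM' (by omega)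
    (mem_B.2 ⟨hp, by unfold Nat.dist; omega⟩) (fun w hw => by
      rw [mem_B] at hw
      exact m2 w (by have := hw.2; unfold Nat.dist at this; omega) (n - 1) (by omega) (by omega))
  have hn : (1 : ℝ) ≤ n := by exact_mod_cast (show 1 ≤ n by omega)
  have hc : 0 ≤ 1 - 1 / (n : ℝ) := by
    rw [sub_nonneg, div_le_one (by linarith)]; exact hn
  refine le_trans ?_ (mul_le_mul_of_nonneg_left hfg hc)
  beta_reduce at eg pk e0 e1
  rw [eM, eg]
  have : (1 - 1 / (n : ℝ)) * (2 * |f p| - |f 0| - |f (n - 1)|) =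
      2 * |f p| - (|f 0| + (|f p| - |f 0|) / n) - (|f (n - 1)| + (|f p| - |f (n - 1)|) / n) := by
    ring
  rw [this]
  linarith

/-- Path on the vertices `0, …, n-1`; `M` is the centered maximal function of `f`; `|f|` has a
single peak or a single valley at `p`. -/
theorem result (n p : ℕ) (hp : p < n) (f M : ℕ → ℝ)
    (h : ((∀ i, i < p → |f i| ≤ |f (i + 1)|) ∧ (∀ i, p ≤ i → i + 1 < n → |f (i + 1)| ≤ |f i|)) ∨
      ((∀ i, i < p → |f (i + 1)| ≤ |f i|) ∧ (∀ i, p ≤ i → i + 1 < n → |f i| ≤ |f (i + 1)|)))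
    (hM : ∀ v, v < n → IsGreatest {a : ℝ | ∃ r : ℕ,
      a = (∑ w ∈ (Finset.range n).filter (fun w => Nat.dist v w ≤ r), |f w|) /
        (((Finset.range n).filter (fun w => Nat.dist v w ≤ r)).card : ℝ)} (M v)) :
    ∑ i ∈ Finset.range (n - 1), |M i - M (i + 1)| ≤
      (1 - 1 / (n : ℝ)) * ∑ i ∈ Finset.range (n - 1), |f i - f (i + 1)| := by
  rcases h with ⟨h1, h2⟩ | ⟨h1, h2⟩
  · exact peaked n p hp f M h1 h2 hM
  have hM' : ∀ v, v < n → IsGreatest
      {a : ℝ | ∃ r : ℕ, a = (∑ w ∈ B n v r, |f w|) / (B n v r).card} (M v) := hM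
  have m1 : ∀ j, j ≤ p → ∀ i, i ≤ j → |f j| ≤ |f i| := by
    intro j hj i hi
    induction j, hi using Nat.le_induction with
    | base => exact le_rfl
    | succ j _ ih => exact (h1 j (by omega)).trans (ih (by omega))
  have m2 : ∀ i, p ≤ i → ∀ j, i ≤ j → j < n → |f i| ≤ |f j| := by
    intro i hi j hj hn
    induction j, hj using Nat.le_induction with
    | base => exact le_rfl
    | succ j _ ih => exact (ih (by omega)).trans (h2 j (by omega) hn)
  have hv := valley (g := fun w => |f w|) hM' hp m1 m2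
  have eg := tele (fun w => -|f w|) p (fun i hi => neg_le_neg (h1 i hi)) (n - 1) (by omega)
    (fun i hi hn => neg_le_neg (h2 i hi (by omega)))
  have hfg : ∑ i ∈ range (n - 1), abs (-|f i| - -|f (i + 1)|) ≤
      ∑ i ∈ range (n - 1), |f i - f (i + 1)| :=
    sum_le_sum fun i _ => by
      rw [← abs_neg, show -(-|f i| - -|f (i + 1)|) = |f i| - |f (i + 1)| by ring]
      exact abs_abs_sub_abs_le_abs_sub _ _
  have hn : (1 : ℝ) ≤ n := by exact_mod_cast (show 1 ≤ n by omega)
  have hc : 0 ≤ 1 - 1 / (n : ℝ) := by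
    rw [sub_nonneg, div_le_one (by linarith)]; exact hn
  refine hv.trans (mul_le_mul_of_nonneg_left ?_ hc)
  beta_reduce at eg ⊢
  linarith

end Pool.Agent.Results.MP_b61ad0_an.Unimodal
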